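import Pool.Agent.T9h74.Toric.Subst

/-!
# The stabiliser of a torus-invariant fibre as a finite group and a one-parameter group
-/

set_option autoImplicit false
set_option linter.unusedSectionVars false
set_option linter.style.haveILetI false

namespace Pool.Agent.T9h74.Toric

open Finset Pool.Agent.TH144.NV MvPolynomial

variable {K : Type*} [AddCommGroup K] {N : ℕ} {k : Type*} [Field k]

/-- the characters of `K ⧸ S` -/
abbrev GG (k : Type*) [Field k] (S : AddSubgroup K) : Type _ := Multiplicative (K ⧸ S) →* kˣ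

/-- the character of `K` -/
def tg {S : AddSubgroup K} (g : GG k S) : K →+ Additive kˣ where
  toFun := fun x => Additive.ofMul (g (Multiplicative.ofAdd (QuotientAddGroup.mk x)))
  map_zero' := by
    show Additive.ofMul (g (Multiplicative.ofAdd (0 : K ⧸ S))) = 0
    rw [ofAdd_zero, map_one, ofMul_one]
  map_add' := fun x y => by
    show Additive.ofMul (g (Multiplicative.ofAdd ((x : K ⧸ S) + (y : K ⧸ S)))) = _
    rw [ofAdd_add, map_mul, ofMul_mul]

theorem tg_eq_zero {S : AddSubgroup K} (g : GG k S) {x : K} (hx : x ∈ S) : tg g x = 0 := by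
  show Additive.ofMul (g (Multiplicative.ofAdd (QuotientAddGroup.mk x))) = 0
  rw [(QuotientAddGroup.eq_zero_iff x).2 hx, ofAdd_zero, map_one, ofMul_one]

/-- evaluation of characters -/
def ev (S : AddSubgroup K) (x : K) : GG k S →* kˣ :=
  MonoidHom.eval (Multiplicative.ofAdd (QuotientAddGroup.mk x))

theorem ev_apply (S : AddSubgroup K) (x : K) (g : GG k S) : ev S x g = (tg g x).toMul := rfl

theorem ev_add (S : AddSubgroup K) (x y : K) : (ev S (x + y) : GG k S →* kˣ) = ev S x * ev S y := by
  ext g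
  rw [MonoidHom.mul_apply, ev_apply, ev_apply, ev_apply, map_add]
  rfl

theorem ev_zero (S : AddSubgroup K) : (ev S 0 : GG k S →* kˣ) = 1 := by
  ext g
  rw [ev_apply, map_zero]
  rfl

/-- the one-parameter group -/
def mu (lam : K →+ ℤ) (μ : kˣ) : K →+ Additive kˣ :=
  (zmultiplesHom (Additive kˣ) (Additive.ofMul μ)).comp lam

theorem mu_apply (lam : K →+ ℤ) (μ : kˣ) (x : K) : mu lam μ x = Additive.ofMul (μ ^ lam x) := by
  show lam x • Additive.ofMul μ = _
  rw [ofMul_zpow]

theorem ev_eq_pow {S : AddSubgroup K} {lam : K →+ ℤ} (g : GG k S) (μ : kˣ) {x : K}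
    (hx : 0 ≤ lam x) : ev S x g = μ ^ (lam x).toNat ↔ (tg g - mu lam μ) x = 0 := by
  rw [AddMonoidHom.sub_apply, sub_eq_zero, mu_apply, ev_apply, ← zpow_natCast,
    Int.toNat_of_nonneg hx]
  exact Iff.rfl

variable [IsAlgClosed k] [CharZero k]

/-- weights which take part in level `h` -/
theorem good_mem {w : Fin N → K} (hw : AddSubgroup.closure (Set.range w) = ⊤) {u : K}
    {A : Finset (Fin N)} {lam : K →+ ℤ} (hA : ∀ a ∈ A, lam (w a) = 0) (hu : 0 < lam u)
    (hker : ∀ v, lam v = 0 → ∃ m : ℕ, 0 < m ∧ m • v ∈ AddSubgroup.closure (w '' A))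
    {v : K} (hv : 0 < lam v)
    (hgood : Good (k := k) (lam u).toNat (lam v).toNat
      (ev (AddSubgroup.closure (insert u (w '' A))) v)) :
    u ∈ AddSubgroup.closure (insert v (w '' A)) := by
  set S : AddSubgroup K := AddSubgroup.closure (insert u (w '' A)) with hS
  by_contra hnot
  set Si : AddSubgroup K := AddSubgroup.closure (insert v (w '' A)) with hSi
  have hfin' : Finite (K ⧸ Si) := quot_finite hw Si (torsion_of_pos hker hv)
  have hne : (Multiplicative.ofAdd (QuotientAddGroup.mk u : K ⧸ Si)) ≠ 1 := by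
    intro h
    exact hnot ((QuotientAddGroup.eq_zero_iff u).1 h)
  have : Finite (Multiplicative (K ⧸ Si)) := hfin'
  obtain ⟨φ, hφ⟩ := CommGroup.exists_apply_ne_one_of_hasEnoughRootsOfUnity
    (Multiplicative (K ⧸ Si)) k hne
  have htSi : ∀ x ∈ Si, tg φ x = 0 := fun x hx => tg_eq_zero φ hx
  have hh : 0 < (lam u).toNat := by omega
  obtain ⟨z, hz⟩ := IsAlgClosed.exists_pow_nat_eq (((tg φ u).toMul)⁻¹ : kˣ).val hh
  have hz0 : z ≠ 0 := by
    rintro rfl
    rw [zero_pow hh.ne'] at hz
    exact Units.ne_zero _ hz.symm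
  have hμ : (Units.mk0 z hz0) ^ (lam u).toNat = ((tg φ u).toMul)⁻¹ := by
    ext
    simpa using hz
  set μ := Units.mk0 z hz0 with hμdef
  have hgS : S ≤ (tg φ + mu lam μ).ker := by
    rw [hS, AddSubgroup.closure_le]
    rintro x (rfl | ⟨a, ha, rfl⟩)
    · rw [SetLike.mem_coe, AddMonoidHom.mem_ker, AddMonoidHom.add_apply, mu_apply,
        ← Int.toNat_of_nonneg hu.le, zpow_natCast, hμ, ofMul_inv]
      exact add_neg_cancel _
    · rw [SetLike.mem_coe, AddMonoidHom.mem_ker, AddMonoidHom.add_apply, mu_apply, hA a ha,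
        zpow_zero, ofMul_one, add_zero]
      exact htSi _ (AddSubgroup.subset_closure (Set.mem_insert_of_mem _
        (Set.mem_image_of_mem w ha)))
  let g0 : K ⧸ S →+ Additive kˣ := QuotientAddGroup.lift S (tg φ + mu lam μ) hgS
  let g : GG k S :=
    { toFun := fun x => (g0 x.toAdd).toMul
      map_one' := by
        show (g0 0).toMul = 1
        rw [map_zero]
        rfl
      map_mul' := fun x y => by
        show (g0 (x.toAdd + y.toAdd)).toMul = _
        rw [map_add]
        rfl }
  have hgev : ∀ x, ev S x g = ((tg φ + mu lam μ) x).toMul := fun x => rfl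
  have h1 := hgood g μ (by
    rw [hgev, AddMonoidHom.add_apply, htSi _ (AddSubgroup.subset_closure (Set.mem_insert _ _)),
      zero_add, mu_apply, ← zpow_natCast, Int.toNat_of_nonneg hv.le]
    rfl)
  rw [hμ, inv_eq_one] at h1
  exact hφ h1

omit [IsAlgClosed k] [CharZero k] in
/-- a character which fixes a point at which `u` is invertible is trivial on `u` -/
theorem fix_trivial {w : Fin N → K} {u : K} {P : Fin N → k} {m : ℕ}
    {a b : MvPolynomial (Fin N) k} (ha : IsWeightedHomogeneous w a (m • u))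
    (hb : IsWeightedHomogeneous w b ((m + 1) • u)) (ha0 : eval P a ≠ 0) (hb0 : eval P b ≠ 0)
    (T : K →+ Additive kˣ) (hT : ∀ x, P x ≠ 0 → T (w x) = 0) : T u = 0 := by
  have hfix : (fun x => ((T (w x)).toMul : k) * P x) = P := by
    funext x
    by_cases hx : P x = 0
    · rw [hx, mul_zero]
    · rw [hT x hx]
      simp
  have key : ∀ {r : ℕ} {a : MvPolynomial (Fin N) k},
      IsWeightedHomogeneous w a (r • u) → eval P a ≠ 0 → r • T u = 0 := by
    intro r a ha ha0
    have h1 := eval_char ha T P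
    rw [hfix, map_nsmul] at h1
    have h2 : (((r • T u).toMul : kˣ) : k) = 1 :=
      mul_right_cancel₀ ha0 (by rw [one_mul]; exact h1.symm)
    have h3 : ((r • T u).toMul : kˣ) = 1 := Units.ext h2
    exact h3
  have h1 := key ha ha0
  have h2 := key hb hb0
  rw [succ_nsmul, h1, zero_add] at h2
  exact h2

omit [IsAlgClosed k] [CharZero k] in
/-- from the group to the semigroup -/
theorem exists_monomial {w : Fin N → K} {u : K} {I : Finset (Fin N)}
    (hcone : InCone w I u) (hind : ∀ n : Fin N → ℤ, (∀ j ∉ I, n j = 0) →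
      ∑ j, n j • w j = 0 → n = 0) (hmem : u ∈ AddSubgroup.closure (w '' I)) :
    ∃ n : Fin N → ℕ, (∀ j ∉ I, n j = 0) ∧ u = ∑ x, n x • w x := by
  obtain ⟨m, n, hm, hn, e⟩ := hcone
  obtain ⟨z, hz, hz2⟩ := mem_closure_image hmem
  have h1 : ∀ x, (m : ℤ) * z x = n x := by
    have h2 := hind (fun x => (m : ℤ) * z x - n x) (by
      intro j hj
      rw [hz j hj, hn j hj]
      simp) (by
      have h3 : ∑ x, ((m : ℤ) * z x - n x) • w x = m • u - ∑ x, n x • w x := by
        rw [hz2, Finset.smul_sum, ← Finset.sum_sub_distrib]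
        refine Finset.sum_congr rfl fun x _ => ?_
        rw [sub_smul, mul_smul, natCast_zsmul, natCast_zsmul]
      rw [h3, e, sub_self])
    intro x
    have := congrFun h2 x
    rw [Pi.zero_apply] at this
    linarith
  have hz0 : ∀ x, 0 ≤ z x := by
    intro x
    by_contra hcon
    push Not at hcon
    have hm' : (0 : ℤ) < m := by exact_mod_cast hm
    have h2 := mul_neg_of_pos_of_neg hm' hcon
    rw [h1 x] at h2
    have := Int.natCast_nonneg (n x)
    linarith
  refine ⟨fun x => (z x).toNat, fun j hj => by simp [hz j hj], ?_⟩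
  conv_lhs => rw [hz2]
  refine Finset.sum_congr rfl fun x _ => ?_
  rw [← natCast_zsmul, Int.toNat_of_nonneg (hz0 x)]

end Pool.Agent.T9h74.Toric
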