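import Pool.Agent.T9h74.Toric.Lattice
import Pool.Agent.TH144.NV.Avg

/-!
# Averaging over the stabiliser of the points of a torus-invariant fibre
-/

set_option autoImplicit false
set_option linter.unusedSectionVars false
set_option linter.style.haveILetI false

namespace Pool.Agent.T9h74.Toric

open Finset Pool.Agent.TH144.NV

variable {K : Type*} [AddCommGroup K] {N : ℕ}

theorem moduleFinite {w : Fin N → K} (hw : AddSubgroup.closure (Set.range w) = ⊤) :
    Module.Finite ℤ K := by
  rw [Module.Finite.iff_addGroup_fg, AddGroup.fg_iff]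
  exact ⟨Set.range w, hw, Set.finite_range w⟩

/-- a quotient in which every element is torsion is finite -/
theorem quot_finite {w : Fin N → K} (hw : AddSubgroup.closure (Set.range w) = ⊤)
    (S : AddSubgroup K) (hS : ∀ x, ∃ m : ℕ, 0 < m ∧ m • x ∈ S) : Finite (K ⧸ S) := by
  have := moduleFinite hw
  have h1 : Module.Finite ℤ (K ⧸ S) :=
    Module.Finite.of_surjective (QuotientAddGroup.mk' S).toIntLinearMap
      (QuotientAddGroup.mk'_surjective S)
  apply Module.finite_of_fg_torsion
  intro x
  obtain ⟨y, rfl⟩ := QuotientAddGroup.mk'_surjective S x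
  obtain ⟨m, hm, h2⟩ := hS y
  refine ⟨⟨(m : ℤ), mem_nonZeroDivisors_of_ne_zero (by exact_mod_cast hm.ne')⟩, ?_⟩
  show (m : ℤ) • (QuotientAddGroup.mk' S y) = 0
  rw [natCast_zsmul, ← map_nsmul]
  exact (QuotientAddGroup.eq_zero_iff _).2 h2

theorem torsion_of_pos {w : Fin N → K} {A : Finset (Fin N)} {lam : K →+ ℤ}
    (hker : ∀ v, lam v = 0 → ∃ m : ℕ, 0 < m ∧ m • v ∈ AddSubgroup.closure (w '' A))
    {v : K} (hv : 0 < lam v) (x : K) :
    ∃ m : ℕ, 0 < m ∧ m • x ∈ AddSubgroup.closure (insert v (w '' A)) := by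
  obtain ⟨m, hm, h1⟩ := hker (lam v • x - lam x • v) (by
    rw [map_sub, map_zsmul, map_zsmul, smul_eq_mul, smul_eq_mul]
    ring)
  refine ⟨m * (lam v).toNat, Nat.mul_pos hm (by omega), ?_⟩
  have h2 : (lam v).toNat • x = lam v • x := by
    rw [← natCast_zsmul, Int.toNat_of_nonneg hv.le]
  rw [mul_smul, h2, show m • lam v • x = m • (lam v • x - lam x • v) + m • lam x • v by
    rw [← smul_add, sub_add_cancel]]
  refine AddSubgroup.add_mem _ (AddSubgroup.closure_mono (Set.subset_insert _ _) h1) ?_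
  exact AddSubgroup.nsmul_mem _ (AddSubgroup.zsmul_mem _
    (AddSubgroup.subset_closure (Set.mem_insert _ _)) _) _

variable {k : Type*} [Field k] [IsAlgClosed k] [CharZero k]

open Classical in
/-- The averaged inequality for a torus-invariant fibre. -/
theorem edge_good {w : Fin N → K} (hw : AddSubgroup.closure (Set.range w) = ⊤) (u : K)
    (A : Finset (Fin N)) (lam : K →+ ℤ) (hA : ∀ a ∈ A, lam (w a) = 0) (hu : 0 < lam u)
    (hker : ∀ v, lam v = 0 → ∃ m : ℕ, 0 < m ∧ m • v ∈ AddSubgroup.closure (w '' A))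
    {τ : Type*} [Fintype τ] (dd : τ → K) (hdd : ∀ j, 0 < lam (dd j))
    (H : ∀ t : K →+ Additive kˣ, (∀ a ∈ A, t (w a) = 0) → t u ≠ 0 →
      (univ.filter fun i : {i // 0 < lam (w i)} => t (w i) = 0).card
        ≤ (univ.filter fun j => t (dd j) = 0).card)
    (hsum : ∑ j, lam (dd j) < ∑ i, lam (w i)) :
    ∃ i, 0 < lam (w i) ∧ u ∈ AddSubgroup.closure (insert (w i) (w '' A)) := by
  set S : AddSubgroup K := AddSubgroup.closure (insert u (w '' A)) with hS
  have hfin : Finite (K ⧸ S) := quot_finite hw S (torsion_of_pos hker hu)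
  let G := Multiplicative (K ⧸ S) →* kˣ
  let tg : G → (K →+ Additive kˣ) := fun g =>
    { toFun := fun x => Additive.ofMul (g (Multiplicative.ofAdd (QuotientAddGroup.mk x)))
      map_zero' := by
        show Additive.ofMul (g (Multiplicative.ofAdd (0 : K ⧸ S))) = 0
        rw [ofAdd_zero, map_one, ofMul_one]
      map_add' := fun x y => by
        show Additive.ofMul (g (Multiplicative.ofAdd ((x : K ⧸ S) + (y : K ⧸ S)))) = _
        rw [ofAdd_add, map_mul, ofMul_mul] }
  have htg : ∀ g x, tg g x = Additive.ofMul (g (Multiplicative.ofAdd (QuotientAddGroup.mk x))) :=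
    fun g x => rfl
  have htgS : ∀ g, ∀ x ∈ S, tg g x = 0 := by
    intro g x hx
    rw [htg, (QuotientAddGroup.eq_zero_iff x).2 hx, ofAdd_zero, map_one, ofMul_one]
  let ev : K → G →* kˣ := fun x => MonoidHom.eval (Multiplicative.ofAdd (QuotientAddGroup.mk x))
  have hev : ∀ x g, ev x g = (tg g x).toMul := fun x g => rfl
  let mu : kˣ → (K →+ Additive kˣ) := fun μ => (zmultiplesHom (Additive kˣ) (Additive.ofMul μ)).comp lam
  have hmu : ∀ μ x, mu μ x = Additive.ofMul (μ ^ lam x) := by
    intro μ x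
    show lam x • Additive.ofMul μ = _
    rw [ofMul_zpow]
  have hmain := main_ineq (k := k) (G := G) (σ := {i // 0 < lam (w i)}) (τ := τ)
    (fun i => (lam (w i)).toNat) (fun i => by have := i.2; omega)
    (fun j => (lam (dd j)).toNat) (fun j => by have := hdd j; omega)
    (fun i => ev (w i)) (fun j => ev (dd j)) (lam u).toNat (by
      intro g μ hμ
      have hpow : ∀ x, 0 < lam x → (ev x g = μ ^ (lam x).toNat ↔ (tg g - mu μ) x = 0) := by
        intro x hx
        rw [AddMonoidHom.sub_apply, sub_eq_zero, hmu, hev, ← zpow_natCast,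
          Int.toNat_of_nonneg hx.le]
        exact Iff.rfl
      have h1 := H (tg g - mu μ) (by
        intro a ha
        rw [AddMonoidHom.sub_apply, htgS g _ (AddSubgroup.subset_closure
          (Set.mem_insert_of_mem _ (Set.mem_image_of_mem w ha))), hmu, hA a ha, zpow_zero,
          ofMul_one, sub_zero]) (by
        rw [AddMonoidHom.sub_apply, htgS g _ (AddSubgroup.subset_closure (Set.mem_insert _ _)),
          zero_sub, neg_ne_zero, hmu]
        intro h0
        apply hμ
        rw [← zpow_natCast, Int.toNat_of_nonneg hu.le]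
        exact h0)
      have e1 : (univ.filter fun i : {i // 0 < lam (w i)} =>
          ev (w i) g = μ ^ (lam (w i)).toNat) =
          univ.filter fun i : {i // 0 < lam (w i)} => (tg g - mu μ) (w i) = 0 :=
        Finset.filter_congr fun i _ => hpow _ i.2
      have e2 : (univ.filter fun j => ev (dd j) g = μ ^ (lam (dd j)).toNat) =
          univ.filter fun j => (tg g - mu μ) (dd j) = 0 :=
        Finset.filter_congr fun j _ => hpow _ (hdd j)
      rw [e1, e2]
      exact h1)
  -- some variable is good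
  obtain ⟨i, hi⟩ : ∃ i : {i // 0 < lam (w i)},
      Good (lam u).toNat (lam (w i)).toNat (ev (w i)) := by
    by_contra hcon
    push Not at hcon
    rw [Finset.filter_true_of_mem (fun i _ => hcon i)] at hmain
    have h2 : ∑ j ∈ univ.filter (fun j => ¬ Good (lam u).toNat (lam (dd j)).toNat (ev (dd j))),
        (lam (dd j)).toNat ≤ ∑ j, (lam (dd j)).toNat :=
      Finset.sum_le_sum_of_subset (Finset.filter_subset _ _)
    have h3 : ((∑ j, (lam (dd j)).toNat : ℕ) : ℤ) = ∑ j, lam (dd j) := by
      rw [Nat.cast_sum]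
      exact Finset.sum_congr rfl fun j _ => Int.toNat_of_nonneg (hdd j).le
    have h4 : ∑ i, lam (w i) ≤ ((∑ i : {i // 0 < lam (w i)}, (lam (w i)).toNat : ℕ) : ℤ) := by
      rw [Nat.cast_sum, Finset.sum_congr rfl fun (i : {i // 0 < lam (w i)}) _ =>
        Int.toNat_of_nonneg i.2.le]
      rw [← Finset.sum_subtype (univ.filter fun i => 0 < lam (w i)) (by simp) (fun i => lam (w i))]
      rw [← Finset.sum_filter_add_sum_filter_not univ (fun i => 0 < lam (w i))]
      have : ∑ i ∈ univ.filter (fun i => ¬ 0 < lam (w i)), lam (w i) ≤ 0 :=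
        Finset.sum_nonpos fun i hi => not_lt.1 (mem_filter.1 hi).2
      linarith
    have h5 : ((∑ i : {i // 0 < lam (w i)}, (lam (w i)).toNat : ℕ) : ℤ)
        ≤ ((∑ j, (lam (dd j)).toNat : ℕ) : ℤ) := by exact_mod_cast hmain.trans h2
    linarith
  refine ⟨i, i.2, ?_⟩
  by_contra hnot
  set Si : AddSubgroup K := AddSubgroup.closure (insert (w i) (w '' A)) with hSi
  have hfin' : Finite (K ⧸ Si) := quot_finite hw Si (torsion_of_pos hker i.2)
  have hne : (Multiplicative.ofAdd (QuotientAddGroup.mk u : K ⧸ Si)) ≠ 1 := by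
    intro h
    exact hnot ((QuotientAddGroup.eq_zero_iff u).1 h)
  have : Finite (Multiplicative (K ⧸ Si)) := hfin'
  obtain ⟨φ, hφ⟩ := CommGroup.exists_apply_ne_one_of_hasEnoughRootsOfUnity
    (Multiplicative (K ⧸ Si)) k hne
  let t : K →+ Additive kˣ :=
    { toFun := fun x => Additive.ofMul (φ (Multiplicative.ofAdd (QuotientAddGroup.mk x)))
      map_zero' := by
        show Additive.ofMul (φ (Multiplicative.ofAdd (0 : K ⧸ Si))) = 0
        rw [ofAdd_zero, map_one, ofMul_one]
      map_add' := fun x y => by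
        show Additive.ofMul (φ (Multiplicative.ofAdd ((x : K ⧸ Si) + (y : K ⧸ Si)))) = _
        rw [ofAdd_add, map_mul, ofMul_mul] }
  have htSi : ∀ x ∈ Si, t x = 0 := by
    intro x hx
    show Additive.ofMul (φ (Multiplicative.ofAdd (QuotientAddGroup.mk x))) = 0
    rw [(QuotientAddGroup.eq_zero_iff x).2 hx, ofAdd_zero, map_one, ofMul_one]
  have hh : 0 < (lam u).toNat := by omega
  obtain ⟨z, hz⟩ := IsAlgClosed.exists_pow_nat_eq (((t u).toMul)⁻¹ : kˣ).val hh
  have hz0 : z ≠ 0 := by
    rintro rfl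
    rw [zero_pow hh.ne'] at hz
    exact Units.ne_zero _ hz.symm
  have hμ : (Units.mk0 z hz0) ^ (lam u).toNat = ((t u).toMul)⁻¹ := by
    ext
    simpa using hz
  set μ := Units.mk0 z hz0 with hμdef
  -- the character of `K ⧸ S`
  have hgS : S ≤ (t + mu μ).ker := by
    rw [hS, AddSubgroup.closure_le]
    rintro x (rfl | ⟨a, ha, rfl⟩)
    · rw [SetLike.mem_coe, AddMonoidHom.mem_ker, AddMonoidHom.add_apply, hmu,
        ← Int.toNat_of_nonneg hu.le, zpow_natCast, hμ, ofMul_inv]
      exact add_neg_cancel _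
    · rw [SetLike.mem_coe, AddMonoidHom.mem_ker, AddMonoidHom.add_apply, hmu, hA a ha, zpow_zero,
        ofMul_one, add_zero]
      exact htSi _ (AddSubgroup.subset_closure (Set.mem_insert_of_mem _
        (Set.mem_image_of_mem w ha)))
  let g0 : K ⧸ S →+ Additive kˣ := QuotientAddGroup.lift S (t + mu μ) hgS
  let g : G :=
    { toFun := fun x => (g0 x.toAdd).toMul
      map_one' := by
        show (g0 0).toMul = 1
        rw [map_zero]
        rfl
      map_mul' := fun x y => by
        show (g0 (x.toAdd + y.toAdd)).toMul = _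
        rw [map_add]
        rfl }
  have hgev : ∀ x, ev x g = ((t + mu μ) x).toMul := fun x => rfl
  have h1 := hi g μ (by
    rw [hgev, AddMonoidHom.add_apply, htSi _ (AddSubgroup.subset_closure (Set.mem_insert _ _)),
      zero_add, hmu, ← zpow_natCast, Int.toNat_of_nonneg i.2.le]
    rfl)
  rw [hμ, inv_eq_one] at h1
  exact hφ h1

end Pool.Agent.T9h74.Toric
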