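import Pool.Agent.T9h74.Toric.Frame

/-!
# Extremal rays

For a vector `u` in the cone spanned by finitely many vectors `ω i` there is a linear form `lam` such
that `u` lies in the simplicial cones spanned by a fixed set `A` of vectors of the kernel of `lam` and
any one of the vectors on which `lam` is positive.
-/

set_option autoImplicit false
set_option linter.unusedSectionVars false

namespace Pool.Agent.T9h74.Toric

open Finset Filter Topology

variable {V : Type*} [AddCommGroup V] [Module ℚ V] {N : ℕ} {ω : Fin N → V}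

/-- a vector in the interior of the cone with nonzero coordinates in all bases -/
theorem exists_interior (ω : Fin N → V) : ∃ v, (∃ c : Fin N → ℚ, (∀ i, 0 ≤ c i) ∧
    v = ∑ i, c i • ω i) ∧ ∀ D, Frm ω D → ∀ a ∈ D, phi ω D a v ≠ 0 := by
  classical
  let p : Finset (Fin N) × Fin N → Polynomial ℚ := fun x =>
    ∑ i : Fin N, Polynomial.C (phi ω x.1 x.2 (ω i)) * Polynomial.X ^ (i : ℕ)
  let S : Finset (Finset (Fin N) × Fin N) := univ.filter fun x => Frm ω x.1 ∧ x.2 ∈ x.1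
  have hp : ∀ x ∈ S, p x ≠ 0 := by
    rintro ⟨D, a⟩ hx h0
    obtain ⟨hD, ha⟩ := (mem_filter.1 hx).2
    have h1 := congrArg (fun q => Polynomial.coeff q (a : ℕ)) h0
    simp only [p, Polynomial.finsetSum_coeff, Polynomial.coeff_C_mul, Polynomial.coeff_X_pow,
      Polynomial.coeff_zero] at h1
    rw [Finset.sum_eq_single_of_mem a (mem_univ a)] at h1
    · rw [if_pos rfl, mul_one, hD.isFrame.dual a ha a ha, if_pos rfl] at h1
      exact one_ne_zero h1
    · intro b _ hb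
      rw [if_neg (fun h => hb (Fin.ext h.symm)), mul_zero]
  have hq : ∏ x ∈ S, p x ≠ 0 := Finset.prod_ne_zero_iff.2 hp
  obtain ⟨t, ht0, ht⟩ : ∃ t : ℚ, 0 < t ∧ Polynomial.eval t (∏ x ∈ S, p x) ≠ 0 := by
    by_contra hcon
    push Not at hcon
    apply hq
    apply Polynomial.eq_zero_of_infinite_isRoot
    exact (Set.Ioi_infinite (0 : ℚ)).mono fun t ht => hcon t ht
  refine ⟨∑ i : Fin N, t ^ (i : ℕ) • ω i, ⟨fun i => t ^ (i : ℕ), fun i => (pow_pos ht0 _).le, rfl⟩, ?_⟩
  intro D hD a ha h0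
  apply ht
  rw [Polynomial.eval_prod]
  refine Finset.prod_eq_zero (i := (D, a)) (mem_filter.2 ⟨mem_univ _, hD, ha⟩) ?_
  simp only [p, Polynomial.eval_finsetSum, Polynomial.eval_mul, Polynomial.eval_C,
    Polynomial.eval_pow, Polynomial.eval_X]
  rw [← h0, map_sum]
  refine Finset.sum_congr rfl fun i _ => ?_
  rw [map_smul, smul_eq_mul, mul_comm]

/-- perturbation of `u` -/
theorem exists_generic (u : V) (hu : ∃ c : Fin N → ℚ, (∀ i, 0 ≤ c i) ∧ u = ∑ i, c i • ω i) :
    ∃ u', (∃ c : Fin N → ℚ, (∀ i, 0 ≤ c i) ∧ u' = ∑ i, c i • ω i) ∧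
      (∀ D, Frm ω D → ∀ a ∈ D, phi ω D a u' ≠ 0) ∧
      ∀ D, Frm ω D → ∀ a ∈ D, 0 < phi ω D a u' → 0 ≤ phi ω D a u := by
  classical
  obtain ⟨v, ⟨c', hc', hv⟩, hv0⟩ := exists_interior ω
  obtain ⟨c, hc, hcu⟩ := hu
  have key : ∀ᶠ e in 𝓝[>] (0 : ℚ), ∀ x : Finset (Fin N) × Fin N, Frm ω x.1 → x.2 ∈ x.1 →
      phi ω x.1 x.2 u + e * phi ω x.1 x.2 v ≠ 0 ∧
      (0 < phi ω x.1 x.2 u + e * phi ω x.1 x.2 v → 0 ≤ phi ω x.1 x.2 u) := by
    rw [Filter.eventually_all]
    rintro ⟨D, a⟩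
    by_cases hD : Frm ω D ∧ a ∈ D
    swap
    · exact Filter.Eventually.of_forall fun e h1 h2 => absurd ⟨h1, h2⟩ hD
    have h0 := hv0 D hD.1 a hD.2
    set x := phi ω D a u with hx
    set y := phi ω D a v with hy
    rcases eq_or_ne x 0 with hx0 | hx0
    · filter_upwards [self_mem_nhdsWithin] with e he _ _
      change phi ω D a u + e * phi ω D a v ≠ 0 ∧ _
      rw [← hx, ← hy, hx0]
      exact ⟨by rw [zero_add]; exact mul_ne_zero (ne_of_gt he) h0, fun _ => le_rfl⟩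
    · have hpos : 0 < |x| / (|y|) := div_pos (abs_pos.2 hx0) (abs_pos.2 h0)
      filter_upwards [Ioo_mem_nhdsGT hpos] with e he _ _
      change phi ω D a u + e * phi ω D a v ≠ 0 ∧
        (0 < phi ω D a u + e * phi ω D a v → 0 ≤ phi ω D a u)
      rw [← hx, ← hy]
      have h1 : |e * y| < |x| := by
        rw [abs_mul, abs_of_pos he.1]
        exact (lt_div_iff₀ (abs_pos.2 h0)).1 he.2
      constructor
      · intro h2
        have h3 : x = -(e * y) := by linarith
        rw [h3, abs_neg] at h1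
        exact lt_irrefl _ h1
      · intro h2
        by_contra h3
        push Not at h3
        rw [abs_of_neg h3] at h1
        have := le_abs_self (e * y)
        linarith
  obtain ⟨e, he, he0⟩ := (key.and self_mem_nhdsWithin).exists
  refine ⟨u + e • v, ⟨fun i => c i + e * c' i, fun i => ?_, ?_⟩, ?_, ?_⟩
  · exact add_nonneg (hc i) (mul_nonneg (le_of_lt he0) (hc' i))
  · rw [hcu, hv, Finset.smul_sum, ← Finset.sum_add_distrib]
    refine Finset.sum_congr rfl fun i _ => ?_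
    rw [add_smul, mul_smul]
  · intro D hD a ha
    rw [map_add, map_smul, smul_eq_mul]
    exact (he (D, a) hD ha).1
  · intro D hD a ha
    rw [map_add, map_smul, smul_eq_mul]
    exact (he (D, a) hD ha).2

/-- Carathéodory: a generic vector of the cone has positive coordinates in some basis -/
theorem exists_feasible (hspan : Submodule.span ℚ (Set.range ω) = ⊤) (u : V)
    (hu : ∃ c : Fin N → ℚ, (∀ i, 0 ≤ c i) ∧ u = ∑ i, c i • ω i)
    (hgen : ∀ D, Frm ω D → ∀ a ∈ D, phi ω D a u ≠ 0) :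
    ∃ D, Frm ω D ∧ ∀ a ∈ D, 0 < phi ω D a u := by
  classical
  -- a representation with minimal support
  have hex : ∃ n : ℕ, ∃ c : Fin N → ℚ, (∀ i, 0 ≤ c i) ∧ u = ∑ i, c i • ω i ∧
      (univ.filter fun i => c i ≠ 0).card = n := by
    obtain ⟨c, h1, h2⟩ := hu
    exact ⟨_, c, h1, h2, rfl⟩
  obtain ⟨c, hc, hcu, hcn⟩ := Nat.find_spec hex
  have hmin := fun m hm => Nat.find_min hex (m := m) hm
  set s := univ.filter fun i => c i ≠ 0 with hs
  have hind : LinearIndepOn ℚ ω (s : Set (Fin N)) := by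
    by_contra hdep
    rw [linearIndepOn_finset_iff] at hdep
    push Not at hdep
    obtain ⟨g, hg, i0, hi0, hgi0⟩ := hdep
    -- some coefficient is positive
    obtain ⟨g, hg, i1, hi1, hgi1⟩ : ∃ g : Fin N → ℚ, ∑ i ∈ s, g i • ω i = 0 ∧
        ∃ i ∈ s, 0 < g i := by
      rcases lt_or_gt_of_ne hgi0 with h | h
      · exact ⟨fun i => - g i, by simp only [neg_smul, Finset.sum_neg_distrib, hg, neg_zero],
          i0, hi0, by simpa using h⟩
      · exact ⟨g, hg, i0, hi0, h⟩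
    obtain ⟨j, hj, hjmin⟩ := Finset.exists_min_image (s.filter fun i => 0 < g i)
      (fun i => c i / g i) ⟨i1, mem_filter.2 ⟨hi1, hgi1⟩⟩
    obtain ⟨hjs, hgj⟩ := mem_filter.1 hj
    set τ := c j / g j with hτ
    have hτ0 : 0 ≤ τ := div_nonneg (hc j) hgj.le
    let c' : Fin N → ℚ := fun i => if i ∈ s then c i - τ * g i else 0
    have hc'0 : ∀ i, 0 ≤ c' i := by
      intro i
      show 0 ≤ if i ∈ s then c i - τ * g i else 0
      split_ifs with h
      · rcases le_or_gt (g i) 0 with h1 | h1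
        · have := mul_nonpos_of_nonneg_of_nonpos hτ0 h1
          linarith [hc i]
        · have h2 := hjmin i (mem_filter.2 ⟨h, h1⟩)
          have h3 : τ * g i ≤ c i := by
            rw [hτ]
            exact (le_div_iff₀ h1).1 h2
          linarith
      · exact le_rfl
    have hc'u : u = ∑ i, c' i • ω i := by
      have e1 : ∑ i, c' i • ω i = ∑ i ∈ s, (c i - τ * g i) • ω i := by
        rw [← Finset.sum_subset (Finset.subset_univ s)]
        · refine Finset.sum_congr rfl fun i hi => ?_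
          show (if i ∈ s then c i - τ * g i else 0) • ω i = _
          rw [if_pos hi]
        · intro i _ hi
          show (if i ∈ s then c i - τ * g i else 0) • ω i = _
          rw [if_neg hi, zero_smul]
      have e2 : ∑ i, c i • ω i = ∑ i ∈ s, c i • ω i := by
        rw [← Finset.sum_subset (Finset.subset_univ s)]
        intro i _ hi
        have : c i = 0 := by
          by_contra h
          exact hi (mem_filter.2 ⟨mem_univ _, h⟩)
        rw [this, zero_smul]
      rw [e1, hcu, e2]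
      have e3 : ∑ i ∈ s, (c i - τ * g i) • ω i = ∑ i ∈ s, c i • ω i - τ • ∑ i ∈ s, g i • ω i := by
        rw [Finset.smul_sum, ← Finset.sum_sub_distrib]
        refine Finset.sum_congr rfl fun i _ => ?_
        rw [sub_smul, mul_smul]
      rw [e3, hg, smul_zero, sub_zero]
    have hlt : (univ.filter fun i => c' i ≠ 0).card < Nat.find hex := by
      rw [← hcn]
      apply Finset.card_lt_card
      refine ⟨?_, ?_⟩
      · intro i hi
        have h1 := (mem_filter.1 hi).2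
        by_contra h2
        exact h1 (if_neg h2)
      · intro h
        have h1 := (mem_filter.1 (h hjs)).2
        apply h1
        show (if j ∈ s then c j - τ * g j else 0) = 0
        rw [if_pos hjs, hτ, div_mul_cancel₀ _ hgj.ne', sub_self]
    exact hmin _ hlt ⟨c', hc'0, hc'u, rfl⟩
  obtain ⟨D, hsD, hD⟩ := exists_frame hspan s hind
  have hcoord : ∀ a ∈ D, phi ω D a u = c a := by
    intro a ha
    rw [hcu, map_sum, Finset.sum_eq_single_of_mem a (mem_univ a)]
    · rw [map_smul, hD.isFrame.dual a ha a ha, if_pos rfl, smul_eq_mul, mul_one]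
    · intro b _ hb
      rw [map_smul, smul_eq_mul]
      by_cases h : c b = 0
      · rw [h, zero_mul]
      · have hbD : b ∈ D := hsD (mem_filter.2 ⟨mem_univ _, h⟩)
        rw [hD.isFrame.dual a ha b hbD, if_neg (Ne.symm hb), mul_zero]
  refine ⟨D, hD, fun a ha => ?_⟩
  have h1 := hgen D hD a ha
  rw [hcoord a ha] at h1 ⊢
  exact lt_of_le_of_ne (hc a) (Ne.symm h1)

/-- the pivot step of the simplex method -/
theorem exists_pivot {u' : V} (hgen : ∀ D, Frm ω D → ∀ a ∈ D, phi ω D a u' ≠ 0)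
    {D : Finset (Fin N)} (hD : Frm ω D) (hDpos : ∀ a ∈ D, 0 < phi ω D a u') {j : Fin N}
    (hj : j ∉ D) {a : Fin N} (ha : a ∈ D) (hapos : 0 < phi ω D a (ω j)) :
    ∃ b ∈ D, 0 < phi ω D b (ω j) ∧
      phi ω D b u' / phi ω D b (ω j) ≤ phi ω D a u' / phi ω D a (ω j) ∧
      Frm ω (insert j (D.erase b)) ∧
      (∀ c ∈ insert j (D.erase b), 0 < phi ω (insert j (D.erase b)) c u') ∧
      phi ω (insert j (D.erase b)) j = (phi ω D b (ω j))⁻¹ • phi ω D b ∧
      ∀ c ∈ D, c ≠ b → phi ω (insert j (D.erase b)) c =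
        phi ω D c - (phi ω D c (ω j) / phi ω D b (ω j)) • phi ω D b := by
  classical
  obtain ⟨b, hb, hbmin⟩ := Finset.exists_min_image (D.filter fun x => 0 < phi ω D x (ω j))
    (fun x => phi ω D x u' / phi ω D x (ω j)) ⟨a, mem_filter.2 ⟨ha, hapos⟩⟩
  obtain ⟨hbD, hbpos⟩ := mem_filter.1 hb
  have hpiv2 := hD.isFrame.pivot hbD hj hbpos.ne'
  set D'' := insert j (D.erase b) with hD''
  have hD''F : Frm ω D'' := ⟨_, hpiv2⟩
  have hP0 : 0 < phi ω D b u' := hDpos b hbD
  have hne : ∀ c ∈ D, c ≠ j := fun c hc h => hj (h ▸ hc)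
  refine ⟨b, hbD, hbpos, hbmin a (mem_filter.2 ⟨ha, hapos⟩), hD''F, ?_, ?_, ?_⟩
  · intro c hc
    refine lt_of_le_of_ne ?_ (Ne.symm (hgen D'' hD''F c hc))
    rw [hpiv2.phi_eq hc]
    by_cases hci' : c = j
    · simp only [hci', if_true, LinearMap.smul_apply, smul_eq_mul]
      exact mul_nonneg (inv_nonneg.2 hbpos.le) hP0.le
    · obtain ⟨hcb, hcD⟩ : c ≠ b ∧ c ∈ D := by
        rw [mem_insert, mem_erase] at hc
        tauto
      simp only [if_neg hci', LinearMap.sub_apply, LinearMap.smul_apply, smul_eq_mul]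
      have h1 := hDpos c hcD
      rcases le_or_gt (phi ω D c (ω j)) 0 with h2 | h2
      · have : phi ω D c (ω j) / phi ω D b (ω j) * phi ω D b u' ≤ 0 :=
          mul_nonpos_of_nonpos_of_nonneg (div_nonpos_of_nonpos_of_nonneg h2 hbpos.le) hP0.le
        linarith
      · have h3 := hbmin c (mem_filter.2 ⟨hcD, h2⟩)
        rw [div_le_div_iff₀ hbpos h2] at h3
        rw [sub_nonneg, div_mul_eq_mul_div, div_le_iff₀ hbpos]
        linarith
  · rw [hpiv2.phi_eq (mem_insert_self _ _), if_pos rfl]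
  · intro c hc hcb
    have hcD'' : c ∈ D'' := by
      rw [hD'', mem_insert, mem_erase]
      exact Or.inr ⟨hcb, hc⟩
    rw [hpiv2.phi_eq hcD'', if_neg (hne c hc)]

/-- linear programming duality -/
theorem exists_dual {u' : V} (hgen : ∀ D, Frm ω D → ∀ a ∈ D, phi ω D a u' ≠ 0)
    (hfeas : ∃ D, Frm ω D ∧ ∀ a ∈ D, 0 < phi ω D a u') (A : Finset (Fin N)) :
    ∃ D, Frm ω D ∧ (∀ a ∈ D, 0 < phi ω D a u') ∧
      ∀ j ∈ A, ∑ i ∈ D.filter (fun i => i ∉ A), phi ω D i (ω j) ≤ 0 := by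
  classical
  obtain ⟨D0, hD0, hD0pos⟩ := hfeas
  let S : Finset (Finset (Fin N)) := univ.filter fun D => Frm ω D ∧ ∀ a ∈ D, 0 < phi ω D a u'
  have hS : ∀ D, D ∈ S ↔ Frm ω D ∧ ∀ a ∈ D, 0 < phi ω D a u' := by
    intro D
    simp only [S, mem_filter, mem_univ, true_and]
  obtain ⟨D, hDS, hDmin⟩ := Finset.exists_min_image S
    (fun D => ∑ i ∈ D.filter (fun i => i ∉ A), phi ω D i u') ⟨D0, (hS _).2 ⟨hD0, hD0pos⟩⟩
  obtain ⟨hD, hDpos⟩ := (hS D).1 hDS
  refine ⟨D, hD, hDpos, fun j hjA => ?_⟩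
  by_contra hcon
  push Not at hcon
  by_cases hj : j ∈ D
  · rw [Finset.sum_eq_zero] at hcon
    · exact lt_irrefl _ hcon
    · intro i hi
      obtain ⟨hiD, hiA⟩ := mem_filter.1 hi
      rw [hD.isFrame.dual i hiD j hj, if_neg]
      rintro rfl
      exact hiA hjA
  obtain ⟨a, ha, hapos⟩ : ∃ a ∈ D.filter (fun i => i ∉ A), 0 < phi ω D a (ω j) := by
    by_contra h
    push Not at h
    exact absurd (Finset.sum_nonpos h) (not_le.2 hcon)
  obtain ⟨b, hbD, hbpos, -, hF'', hpos'', hj'', hc''⟩ :=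
    exists_pivot hgen hD hDpos hj (mem_filter.1 ha).1 hapos
  have hmin := hDmin _ ((hS _).2 ⟨hF'', hpos''⟩)
  set D'' := insert j (D.erase b) with hD''
  have hτ : 0 < phi ω D b u' / phi ω D b (ω j) := div_pos (hDpos b hbD) hbpos
  have e1 : D''.filter (fun i => i ∉ A) = (D.filter fun i => i ∉ A).erase b := by
    ext i
    simp only [hD'', mem_filter, mem_insert, mem_erase]
    constructor
    · rintro ⟨h1 | h1, h2⟩
      · exact absurd hjA (h1 ▸ h2)
      · exact ⟨h1.1, h1.2, h2⟩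
    · rintro ⟨h1, h2, h3⟩
      exact ⟨Or.inr ⟨h1, h2⟩, h3⟩
  have e2 : ∑ i ∈ D''.filter (fun i => i ∉ A), phi ω D'' i u' =
      ∑ i ∈ D.filter (fun i => i ∉ A), (phi ω D i u' -
        phi ω D i (ω j) * (phi ω D b u' / phi ω D b (ω j))) := by
    rw [e1]
    have h0 : phi ω D b u' - phi ω D b (ω j) * (phi ω D b u' / phi ω D b (ω j)) = 0 := by
      field_simp
      ring
    rw [← Finset.sum_erase (D.filter fun i => i ∉ A) h0]
    refine Finset.sum_congr rfl fun i hi => ?_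
    obtain ⟨hib, hi2⟩ := mem_erase.1 hi
    rw [hc'' i (mem_filter.1 hi2).1 hib, LinearMap.sub_apply, LinearMap.smul_apply, smul_eq_mul]
    ring
  rw [e2, Finset.sum_sub_distrib, ← Finset.sum_mul] at hmin
  have := mul_pos hcon hτ
  linarith

/-- The extremal ray. The vector `z` is nef and not ample; the ray is orthogonal to `z`. -/
theorem exists_extremal (hspan : Submodule.span ℚ (Set.range ω) = ⊤) (u z : V)
    (hu : ∃ c : Fin N → ℚ, (∀ i, 0 ≤ c i) ∧ u = ∑ i, c i • ω i)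
    (hz : ∀ D, Frm ω D → (∀ a ∈ D, 0 ≤ phi ω D a u) → ∀ a ∈ D, 0 ≤ phi ω D a z)
    (hna : ∃ A : Finset (Fin N), (∃ c : Fin N → ℚ, (∀ i, 0 ≤ c i) ∧ (∀ i ∉ A, c i = 0) ∧
      z = ∑ i, c i • ω i) ∧ ¬ ∃ c : Fin N → ℚ, (∀ i, 0 ≤ c i) ∧ (∀ i ∉ A, c i = 0) ∧
      u = ∑ i, c i • ω i) :
    ∃ (A : Finset (Fin N)) (i₀ : Fin N) (lam : V →ₗ[ℚ] ℚ), i₀ ∉ A ∧ Frm ω (insert i₀ A) ∧
      (∀ a ∈ A, lam (ω a) = 0) ∧ 0 < lam u ∧ 0 < lam (ω i₀) ∧ lam z = 0 ∧
      ∀ i, 0 < lam (ω i) → i ∉ A ∧ Frm ω (insert i A) ∧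
        ∀ a ∈ insert i A, 0 ≤ phi ω (insert i A) a u := by
  classical
  obtain ⟨u', hu', hgen, hpos⟩ := exists_generic u hu
  have hfeas := exists_feasible hspan u' hu' hgen
  let S : Finset (Finset (Fin N) × Fin N) :=
    univ.filter fun x => (Frm ω x.1 ∧ (∀ a ∈ x.1, 0 < phi ω x.1 a u') ∧ x.2 ∈ x.1) ∧
      phi ω x.1 x.2 z = 0
  have hS : ∀ D i, (D, i) ∈ S ↔ (Frm ω D ∧ (∀ a ∈ D, 0 < phi ω D a u') ∧ i ∈ D) ∧
      phi ω D i z = 0 := by
    intro D i
    simp only [S, mem_filter, mem_univ, true_and]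
  have hzpos : ∀ D, Frm ω D → (∀ a ∈ D, 0 < phi ω D a u') → ∀ a ∈ D, 0 ≤ phi ω D a z :=
    fun D hD hDpos => hz D hD fun a ha => hpos D hD a ha (hDpos a ha)
  obtain ⟨D0, a0, hx0S, ha0u⟩ : ∃ D i, (D, i) ∈ S ∧ 0 < phi ω D i u := by
    by_contra hcon
    push Not at hcon
    obtain ⟨A, ⟨c, hc, hcA, hcz⟩, hnu⟩ := hna
    obtain ⟨D, hD, hDpos, hdual⟩ := exists_dual hgen hfeas A
    have h1 : ∑ i ∈ D.filter (fun i => i ∉ A), phi ω D i z ≤ 0 := by
      have h2 : ∑ i ∈ D.filter (fun i => i ∉ A), phi ω D i z =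
          ∑ j, c j * ∑ i ∈ D.filter (fun i => i ∉ A), phi ω D i (ω j) := by
        simp only [Finset.mul_sum]
        rw [Finset.sum_comm]
        refine Finset.sum_congr rfl fun i _ => ?_
        conv_lhs => rw [hcz]
        rw [map_sum]
        exact Finset.sum_congr rfl fun j _ => by rw [map_smul, smul_eq_mul]
      rw [h2]
      refine Finset.sum_nonpos fun j _ => ?_
      by_cases hj : j ∈ A
      · exact mul_nonpos_of_nonneg_of_nonpos (hc j) (hdual j hj)
      · rw [hcA j hj, zero_mul]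
    have h3 : ∀ i ∈ D.filter (fun i => i ∉ A), phi ω D i z = 0 := by
      have h4 := (Finset.sum_eq_zero_iff_of_nonneg (fun i hi =>
        hzpos D hD hDpos i (mem_filter.1 hi).1)).1 (le_antisymm h1 (Finset.sum_nonneg fun i hi =>
        hzpos D hD hDpos i (mem_filter.1 hi).1))
      exact h4
    apply hnu
    refine ⟨fun i => if i ∈ D then phi ω D i u else 0, fun i => ?_, fun i hi => ?_, ?_⟩
    · dsimp only
      split_ifs with h
      · exact hpos D hD i h (hDpos i h)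
      · exact le_rfl
    · dsimp only
      split_ifs with h
      · refine le_antisymm ?_ (hpos D hD i h (hDpos i h))
        exact hcon D i ((hS _ _).2 ⟨⟨hD, hDpos, h⟩, h3 i (mem_filter.2 ⟨h, hi⟩)⟩)
      · rfl
    · conv_lhs => rw [hD.isFrame.sum u]
      simp only [ite_smul, zero_smul]
      rw [Finset.sum_ite_mem, Finset.univ_inter]
  have hD0pos := ((hS _ _).1 hx0S).1.2.1
  have ha0 := ((hS _ _).1 hx0S).1.2.2
  let f1 : Finset (Fin N) × Fin N → ℚ := fun x => phi ω x.1 x.2 u / phi ω x.1 x.2 u'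
  let f2 : Finset (Fin N) × Fin N → ℚ := fun x =>
    ∑ j, (phi ω x.1 x.2 (ω j) / phi ω x.1 x.2 u') ^ 2
  obtain ⟨x0, hx0, hx0max⟩ := Finset.exists_max_image S f1 ⟨(D0, a0), hx0S⟩
  have hx0pos : 0 < f1 x0 :=
    lt_of_lt_of_le (div_pos ha0u (hD0pos a0 ha0)) (hx0max (D0, a0) hx0S)
  obtain ⟨⟨D, i⟩, hx, hxmax⟩ := Finset.exists_max_image (S.filter fun x => f1 x = f1 x0) f2
    ⟨x0, mem_filter.2 ⟨hx0, rfl⟩⟩
  obtain ⟨hxS, hx1⟩ := mem_filter.1 hx
  obtain ⟨⟨hD, hDpos, hiD⟩, hiz⟩ := (hS D i).1 hxS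
  have hP : 0 < phi ω D i u' := hDpos i hiD
  have hins : insert i (D.erase i) = D := Finset.insert_erase hiD
  have hdual : ∀ a ∈ D, phi ω D i (ω a) = if i = a then 1 else 0 := hD.isFrame.dual i hiD
  refine ⟨D.erase i, i, phi ω D i, Finset.notMem_erase i D, by rw [hins]; exact hD, ?_, ?_, ?_,
    hiz, ?_⟩
  · intro a ha
    rw [hdual a (mem_of_mem_erase ha), if_neg (Ne.symm (ne_of_mem_erase ha))]
  · have h1 : 0 < phi ω D i u / phi ω D i u' := by
      rw [← hx1] at hx0pos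
      exact hx0pos
    rcases div_pos_iff.1 h1 with h2 | h2
    · exact h2.1
    · exact absurd h2.2 (not_lt.2 hP.le)
  · rw [hdual i hiD, if_pos rfl]
    exact one_pos
  intro i' hi'
  by_cases hii : i' = i
  · rw [hii]
    refine ⟨Finset.notMem_erase i D, by rw [hins]; exact hD, ?_⟩
    rw [hins]
    exact fun a ha => hpos D hD a ha (hDpos a ha)
  have hi'D : i' ∉ D := by
    intro h
    rw [hdual i' h, if_neg (Ne.symm hii)] at hi'
    exact lt_irrefl _ hi'
  set ci := phi ω D i (ω i') with hci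
  have hpiv := hD.isFrame.pivot hiD hi'D (by rw [← hci]; exact hi'.ne')
  set D' := insert i' (D.erase i) with hD'
  have hD'F : Frm ω D' := ⟨_, hpiv⟩
  refine ⟨fun h => hi'D (mem_of_mem_erase h), hD'F, ?_⟩
  suffices hall : ∀ a ∈ D', 0 < phi ω D' a u' from fun a ha => hpos D' hD'F a ha (hall a ha)
  by_contra hcon
  push Not at hcon
  obtain ⟨a, ha, hau⟩ := hcon
  have hau' : phi ω D' a u' < 0 := lt_of_le_of_ne hau (hgen D' hD'F a ha)
  have hai' : a ≠ i' := by
    rintro rfl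
    rw [hpiv.phi_eq ha] at hau'
    simp only [if_true, LinearMap.smul_apply, smul_eq_mul] at hau'
    have : 0 < (phi ω D i (ω a))⁻¹ * phi ω D i u' := mul_pos (inv_pos.2 hi') hP
    linarith
  obtain ⟨hai, haD⟩ : a ≠ i ∧ a ∈ D := by
    rw [hD', mem_insert, mem_erase] at ha
    tauto
  have hratio : 0 < phi ω D a (ω i') ∧
      phi ω D a u' / phi ω D a (ω i') < phi ω D i u' / phi ω D i (ω i') := by
    rw [hpiv.phi_eq ha] at hau'
    simp only [if_neg hai', LinearMap.sub_apply, LinearMap.smul_apply, smul_eq_mul] at hau'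
    have h1 := hDpos a haD
    have h2 : 0 < phi ω D a (ω i') := by
      by_contra h3
      push Not at h3
      have : phi ω D a (ω i') / phi ω D i (ω i') * phi ω D i u' ≤ 0 :=
        mul_nonpos_of_nonpos_of_nonneg (div_nonpos_of_nonpos_of_nonneg h3 hi'.le) hP.le
      linarith
    refine ⟨h2, ?_⟩
    rw [div_lt_div_iff₀ h2 hi']
    have h4 : phi ω D a u' < phi ω D a (ω i') / phi ω D i (ω i') * phi ω D i u' := by linarith
    have h5 := mul_lt_mul_of_pos_right h4 hi'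
    rw [div_mul_eq_mul_div, div_mul_cancel₀ _ hi'.ne'] at h5
    linarith
  obtain ⟨b, hbD, hbpos, hbmin, hD''F, hD''pos, -, hD''c⟩ :=
    exists_pivot hgen hD hDpos hi'D haD hratio.1
  have hbi : b ≠ i := by
    rintro rfl
    exact absurd hratio.2 (not_lt.2 hbmin)
  set D'' := insert i' (D.erase b) with hD''
  have hP0 : 0 < phi ω D b u' := hDpos b hbD
  have hiD'' : i ∈ D'' := by
    rw [hD'', mem_insert, mem_erase]
    exact Or.inr ⟨Ne.symm hbi, hiD⟩
  have hlam1 := hD''c i hiD (Ne.symm hbi)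
  set κ := phi ω D i (ω i') / phi ω D b (ω i') with hκ
  have hκ0 : 0 < κ := div_pos hi' hbpos
  have hlam : ∀ v, phi ω D i v = phi ω D'' i v + κ * phi ω D b v := by
    intro v
    rw [hlam1, LinearMap.sub_apply, LinearMap.smul_apply, smul_eq_mul]
    ring
  have hP1 : 0 < phi ω D'' i u' := hD''pos i hiD''
  have hz01 : phi ω D b z = 0 ∧ phi ω D'' i z = 0 := by
    have h1 := hlam z
    rw [hiz] at h1
    have h2 := hzpos D hD hDpos b hbD
    have h3 := hzpos D'' hD''F hD''pos i hiD''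
    have h4 := mul_nonneg hκ0.le h2
    have h5 : κ * phi ω D b z = 0 := by linarith
    exact ⟨(mul_eq_zero.1 h5).resolve_left hκ0.ne', by linarith⟩
  have h0S : (D, b) ∈ S := (hS _ _).2 ⟨⟨hD, hDpos, hbD⟩, hz01.1⟩
  have h1S : (D'', i) ∈ S := (hS _ _).2 ⟨⟨hD''F, hD''pos, hiD''⟩, hz01.2⟩
  set P := phi ω D i u' with hPdef
  set P0 := phi ω D b u' with hP0def
  set P1 := phi ω D'' i u' with hP1def
  have hPsum : P = P1 + κ * P0 := hlam u'
  set t := P1 / P with ht
  have ht0 : 0 < t := div_pos hP1 hP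
  have ht1 : 1 - t = κ * P0 / P := by
    rw [ht, hPsum]
    have : P1 + κ * P0 ≠ 0 := by rw [← hPsum]; exact hP.ne'
    field_simp
    ring
  have ht1' : 0 < 1 - t := by
    rw [ht1]
    exact div_pos (mul_pos hκ0 hP0) hP
  have hcomb : ∀ v, phi ω D i v / P = t * (phi ω D'' i v / P1) + (1 - t) * (phi ω D b v / P0) := by
    intro v
    rw [ht1, ht, hlam v]
    field_simp
  have hle0 := hx0max _ h0S
  have hle1 := hx0max _ h1S
  have heq : f1 x0 = t * f1 (D'', i) + (1 - t) * f1 (D, b) := by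
    rw [← hx1]
    exact hcomb u
  have e0 : f1 (D, b) = f1 x0 := by
    refine le_antisymm hle0 ?_
    by_contra h
    push Not at h
    have h1 := mul_lt_mul_of_pos_left h ht1'
    have h2 := mul_le_mul_of_nonneg_left hle1 ht0.le
    linarith
  have e1 : f1 (D'', i) = f1 x0 := by
    refine le_antisymm hle1 ?_
    by_contra h
    push Not at h
    have h1 := mul_lt_mul_of_pos_left h ht0
    have h2 := mul_le_mul_of_nonneg_left hle0 ht1'.le
    linarith
  have g0 := hxmax _ (mem_filter.2 ⟨h0S, e0⟩)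
  have g1 := hxmax _ (mem_filter.2 ⟨h1S, e1⟩)
  have hsq : f2 (D, i) = t * f2 (D'', i) + (1 - t) * f2 (D, b) -
      t * (1 - t) * ∑ j, (phi ω D'' i (ω j) / P1 - phi ω D b (ω j) / P0) ^ 2 := by
    show ∑ j, (phi ω D i (ω j) / P) ^ 2 = t * ∑ j, (phi ω D'' i (ω j) / P1) ^ 2 +
      (1 - t) * ∑ j, (phi ω D b (ω j) / P0) ^ 2 - _
    rw [Finset.mul_sum, Finset.mul_sum, Finset.mul_sum, ← Finset.sum_add_distrib,
      ← Finset.sum_sub_distrib]
    refine Finset.sum_congr rfl fun j _ => ?_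
    rw [hcomb (ω j)]
    ring
  have hsum : (phi ω D'' i (ω i) / P1 - phi ω D b (ω i) / P0) ^ 2 ≤
      ∑ j, (phi ω D'' i (ω j) / P1 - phi ω D b (ω j) / P0) ^ 2 :=
    Finset.single_le_sum (f := fun j => (phi ω D'' i (ω j) / P1 - phi ω D b (ω j) / P0) ^ 2)
      (fun j _ => sq_nonneg _) (mem_univ i)
  rw [hD''F.isFrame.dual i hiD'' i hiD'', if_pos rfl, hD.isFrame.dual b hbD i hiD, if_neg hbi,
    zero_div, sub_zero] at hsum
  have hpos1 : 0 < (1 / P1) ^ 2 := pow_pos (div_pos one_pos hP1) 2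
  have h1 := mul_le_mul_of_nonneg_left g1 ht0.le
  have h2 := mul_le_mul_of_nonneg_left g0 ht1'.le
  have h3 : 0 < t * (1 - t) * ∑ j, (phi ω D'' i (ω j) / P1 - phi ω D b (ω j) / P0) ^ 2 :=
    mul_pos (mul_pos ht0 ht1') (lt_of_lt_of_le hpos1 hsum)
  linarith

end Pool.Agent.T9h74.Toric
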