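import Mathlib

/-!
# Bases of a rational vector space among finitely many vectors, and pivots
-/

set_option autoImplicit false
set_option linter.unusedSectionVars false

namespace Pool.Agent.T9h74.Toric

open Finset

variable {V : Type*} [AddCommGroup V] [Module ℚ V] {N : ℕ} (ω : Fin N → V)

/-- `φ` are the coordinates with respect to the basis `ω a`, `a ∈ D`. -/
structure IsFrame (D : Finset (Fin N)) (φ : Fin N → V →ₗ[ℚ] ℚ) : Prop where
  dual : ∀ a ∈ D, ∀ b ∈ D, φ a (ω b) = if a = b then 1 else 0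
  sum : ∀ v, v = ∑ a ∈ D, φ a v • ω a

/-- `D` indexes a basis -/
def Frm (D : Finset (Fin N)) : Prop := ∃ φ, IsFrame ω D φ

open Classical in
/-- the coordinates -/
noncomputable def phi (D : Finset (Fin N)) : Fin N → V →ₗ[ℚ] ℚ :=
  if h : Frm ω D then h.choose else 0

variable {ω}

theorem Frm.isFrame {D : Finset (Fin N)} (h : Frm ω D) : IsFrame ω D (phi ω D) := by
  unfold phi
  rw [dif_pos h]
  exact h.choose_spec

theorem IsFrame.apply_eq {D : Finset (Fin N)} {φ : Fin N → V →ₗ[ℚ] ℚ} (h : IsFrame ω D φ)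
    (l : V →ₗ[ℚ] ℚ) (v : V) : l v = ∑ a ∈ D, φ a v * l (ω a) := by
  conv_lhs => rw [h.sum v]
  rw [map_sum]
  exact Finset.sum_congr rfl fun a _ => by rw [map_smul, smul_eq_mul]

theorem IsFrame.phi_eq {D : Finset (Fin N)} {φ : Fin N → V →ₗ[ℚ] ℚ} (h : IsFrame ω D φ)
    {a : Fin N} (ha : a ∈ D) : phi ω D a = φ a := by
  have h1 : Frm ω D := ⟨φ, h⟩
  ext v
  rw [h.apply_eq (phi ω D a) v, Finset.sum_eq_single_of_mem a ha]
  · rw [h1.isFrame.dual a ha a ha, if_pos rfl, mul_one]
  · intro b hb hba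
    rw [h1.isFrame.dual a ha b hb, if_neg (Ne.symm hba), mul_zero]

/-- pivot: exchange `i ∈ D` for `i' ∉ D` -/
theorem IsFrame.pivot {D : Finset (Fin N)} {φ : Fin N → V →ₗ[ℚ] ℚ} (h : IsFrame ω D φ)
    {i i' : Fin N} (hi : i ∈ D) (hi' : i' ∉ D) (hc : φ i (ω i') ≠ 0) :
    IsFrame ω (insert i' (D.erase i)) (fun a => if a = i' then (φ i (ω i'))⁻¹ • φ i
      else φ a - (φ a (ω i') / φ i (ω i')) • φ i) := by
  have hni : ∀ a ∈ D, a ≠ i' := fun a ha h' => hi' (h' ▸ ha)
  constructor
  · intro a ha b hb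
    rw [mem_insert, mem_erase] at ha hb
    by_cases ha1 : a = i'
    · simp only [ha1, if_true]
      by_cases hb1 : b = i'
      · rw [hb1, if_pos rfl, LinearMap.smul_apply, smul_eq_mul, inv_mul_cancel₀ hc]
      · obtain ⟨hb2, hb3⟩ : b ≠ i ∧ b ∈ D := by tauto
        rw [if_neg (Ne.symm hb1), LinearMap.smul_apply, h.dual i hi b hb3, if_neg (Ne.symm hb2),
          smul_zero]
    · obtain ⟨ha2, ha3⟩ : a ≠ i ∧ a ∈ D := by tauto
      simp only [if_neg ha1, LinearMap.sub_apply, LinearMap.smul_apply, smul_eq_mul]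
      by_cases hb1 : b = i'
      · rw [hb1, if_neg ha1, div_mul_cancel₀ _ hc, sub_self]
      · obtain ⟨hb2, hb3⟩ : b ≠ i ∧ b ∈ D := by tauto
        rw [h.dual i hi b hb3, if_neg (Ne.symm hb2), mul_zero, sub_zero, h.dual a ha3 b hb3]
  · intro v
    have hnm : i' ∉ D.erase i := fun h' => hi' (mem_of_mem_erase h')
    rw [sum_insert hnm]
    simp only [if_true]
    have e1 : ∑ x ∈ D.erase i, (if x = i' then (φ i (ω i'))⁻¹ • φ i
        else φ x - (φ x (ω i') / φ i (ω i')) • φ i) v • ω x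
        = ∑ x ∈ D.erase i, (φ x v • ω x - (φ i v / φ i (ω i')) • (φ x (ω i') • ω x)) := by
      refine Finset.sum_congr rfl fun x hx => ?_
      rw [if_neg (hni x (mem_of_mem_erase hx)), LinearMap.sub_apply, LinearMap.smul_apply,
        smul_eq_mul, sub_smul, smul_smul]
      congr 2
      field_simp
    rw [e1, Finset.sum_sub_distrib, ← Finset.smul_sum]
    have e2 : ∑ x ∈ D.erase i, φ x v • ω x = v - φ i v • ω i := by
      have := h.sum v
      rw [← Finset.add_sum_erase D _ hi] at this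
      rw [eq_sub_iff_add_eq, add_comm]
      exact this.symm
    have e3 : ∑ x ∈ D.erase i, φ x (ω i') • ω x = ω i' - φ i (ω i') • ω i := by
      have := h.sum (ω i')
      rw [← Finset.add_sum_erase D _ hi] at this
      rw [eq_sub_iff_add_eq, add_comm]
      exact this.symm
    rw [e2, e3, LinearMap.smul_apply, smul_sub, smul_smul, div_mul_cancel₀ _ hc, smul_eq_mul]
    rw [show (φ i (ω i'))⁻¹ * φ i v = φ i v / φ i (ω i') by rw [div_eq_inv_mul]]
    abel

/-- an independent set of vectors is contained in a basis -/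
theorem exists_frame (hspan : Submodule.span ℚ (Set.range ω) = ⊤) (s : Finset (Fin N))
    (hs : LinearIndepOn ℚ ω (s : Set (Fin N))) : ∃ D : Finset (Fin N), s ⊆ D ∧ Frm ω D := by
  classical
  obtain ⟨b, -, hsb, hb1, hb2⟩ := exists_linearIndepOn_extension hs (Set.subset_univ _)
  have hsp : ⊤ ≤ Submodule.span ℚ (Set.range fun x : b => ω x) := by
    rw [← hspan, Submodule.span_le]
    rintro _ ⟨i, rfl⟩
    have h1 := hb1 ⟨i, Set.mem_univ i, rfl⟩
    rwa [Set.image_eq_range] at h1
  let B : Module.Basis b ℚ V := Module.Basis.mk hb2 hsp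
  have hB : ∀ x : b, B x = ω x := fun x => Module.Basis.mk_apply _ _ x
  haveI : Fintype b := Fintype.ofFinite _
  refine ⟨b.toFinset, ?_, fun a => if h : a ∈ b then B.coord ⟨a, h⟩ else 0, ?_, ?_⟩
  · intro x hx
    rw [Set.mem_toFinset]
    exact hsb hx
  · intro a ha c hc
    rw [Set.mem_toFinset] at ha hc
    simp only [dif_pos ha]
    rw [← hB ⟨c, hc⟩, Module.Basis.coord_apply, Module.Basis.repr_self, Finsupp.single_apply]
    simp only [Subtype.mk.injEq, eq_comm]
  · intro v
    have h1 := B.sum_repr v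
    conv_lhs => rw [← h1]
    rw [← Finset.sum_coe_sort b.toFinset]
    refine Fintype.sum_equiv (Equiv.subtypeEquivRight (by simp)) _ _ ?_
    intro x
    have : ((Equiv.subtypeEquivRight (by simp) : b ≃ {x // x ∈ b.toFinset}) x : Fin N) = x := rfl
    rw [this]
    simp only [dif_pos x.2, Module.Basis.coord_apply, hB]

end Pool.Agent.T9h74.Toric
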