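import Pool.Agent.T9h74.Toric.Extremal

/-!
# Extremal rays for vectors in a finitely generated abelian group
-/

set_option autoImplicit false
set_option linter.unusedSectionVars false

namespace Pool.Agent.T9h74.Toric

open Finset TensorProduct

variable {K : Type*} [AddCommGroup K] {N : ℕ}

/-- some positive multiple of `v` is a sum of the elements `w i`, `i ∈ A` (with repetitions) -/
def InCone (w : Fin N → K) (A : Finset (Fin N)) (v : K) : Prop :=
  ∃ (m : ℕ) (n : Fin N → ℕ), 0 < m ∧ (∀ i ∉ A, n i = 0) ∧ m • v = ∑ i, n i • w i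

theorem InCone.mono {w : Fin N → K} {A B : Finset (Fin N)} (h : A ⊆ B) {v : K}
    (hv : InCone w A v) : InCone w B v := by
  obtain ⟨m, n, hm, hn, e⟩ := hv
  exact ⟨m, n, hm, fun i hi => hn i fun h' => hi (h h'), e⟩

/-- `x ↦ 1 ⊗ x` -/
noncomputable def io : K →ₗ[ℤ] (ℚ ⊗[ℤ] K) := TensorProduct.mk ℤ ℚ K 1

theorem io_eq_zero {x : K} (h : io x = 0) : ∃ m : ℕ, 0 < m ∧ m • x = 0 := by
  have h1 : IsLocalizedModule (nonZeroDivisors ℤ) (io : K →ₗ[ℤ] (ℚ ⊗[ℤ] K)) :=
    (isLocalizedModule_iff_isBaseChange (nonZeroDivisors ℤ) ℚ _).2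
      (TensorProduct.isBaseChange ℤ K ℚ)
  obtain ⟨c, hc⟩ := (IsLocalizedModule.eq_zero_iff (nonZeroDivisors ℤ) io).1 h
  have hc0 : (c : ℤ) ≠ 0 := nonZeroDivisors.ne_zero c.2
  refine ⟨(c : ℤ).natAbs, Int.natAbs_pos.2 hc0, ?_⟩
  have h2 : (c : ℤ) • x = 0 := hc
  rw [← natCast_zsmul]
  rcases Int.natAbs_eq (c : ℤ) with h3 | h3
  · rw [← h3, h2]
  · have h4 : (((c : ℤ).natAbs : ℕ) : ℤ) = -(c : ℤ) := by omega
    rw [h4, neg_smul, h2, neg_zero]

theorem io_span {w : Fin N → K} (hw : AddSubgroup.closure (Set.range w) = ⊤) :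
    Submodule.span ℚ (Set.range fun i => io (w i)) = ⊤ := by
  have h1 : ∀ x : K, io x ∈ Submodule.span ℚ (Set.range fun i => io (w i)) := by
    intro x
    have hx : x ∈ AddSubgroup.closure (Set.range w) := by rw [hw]; trivial
    induction hx using AddSubgroup.closure_induction with
    | mem y hy =>
      obtain ⟨i, rfl⟩ := hy
      exact Submodule.subset_span ⟨i, rfl⟩
    | zero => rw [map_zero]; exact Submodule.zero_mem _
    | add a b _ _ ha hb => rw [map_add]; exact Submodule.add_mem _ ha hb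
    | neg a _ ha => rw [map_neg]; exact Submodule.neg_mem _ ha
  rw [eq_top_iff]
  rintro y -
  induction y using TensorProduct.induction_on with
  | zero => exact Submodule.zero_mem _
  | tmul q x =>
    have : q ⊗ₜ[ℤ] x = q • (io x : ℚ ⊗[ℤ] K) := by
      show q ⊗ₜ[ℤ] x = q • ((1 : ℚ) ⊗ₜ[ℤ] x)
      rw [TensorProduct.smul_tmul', smul_eq_mul, mul_one]
    rw [this]
    exact Submodule.smul_mem _ _ (h1 x)
  | add a b ha hb => exact Submodule.add_mem _ ha hb

/-- clearing denominators -/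
theorem io_clear {w : Fin N → K} {v : K} {c : Fin N → ℚ} (h : io v = ∑ i, c i • io (w i)) :
    ∃ (m : ℕ) (n : Fin N → ℤ), 0 < m ∧ (∀ i, (n i : ℚ) = m * c i) ∧ m • v = ∑ i, n i • w i := by
  let M : ℕ := ∏ i, (c i).den
  have hM : 0 < M := Finset.prod_pos fun i _ => (c i).den_pos
  have h1 : ∀ i, ∃ z : ℤ, (z : ℚ) = M * c i := by
    intro i
    obtain ⟨q, hq⟩ : (c i).den ∣ M := Finset.dvd_prod_of_mem _ (mem_univ i)
    refine ⟨q * (c i).num, ?_⟩
    rw [hq]
    push_cast
    have := Rat.mul_den_eq_num (c i)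
    rw [← this]
    ring
  choose z hz using h1
  have h2 : io (M • v - ∑ i, z i • w i) = (0 : ℚ ⊗[ℤ] K) := by
    rw [map_sub, map_nsmul, map_sum, h, Finset.smul_sum, ← Finset.sum_sub_distrib]
    refine Finset.sum_eq_zero fun i _ => ?_
    rw [map_zsmul, ← Nat.cast_smul_eq_nsmul ℚ M, smul_smul, ← hz i, Int.cast_smul_eq_zsmul, sub_self]
  obtain ⟨m2, hm2, h3⟩ := io_eq_zero h2
  refine ⟨m2 * M, fun i => m2 * z i, Nat.mul_pos hm2 hM, fun i => ?_, ?_⟩
  · push_cast
    rw [hz i]
    ring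
  · rw [smul_sub, sub_eq_zero, Finset.smul_sum] at h3
    rw [mul_smul, h3]
    refine Finset.sum_congr rfl fun i _ => ?_
    rw [mul_smul, natCast_zsmul]

theorem inCone_iff {w : Fin N → K} {A : Finset (Fin N)} {v : K} :
    InCone w A v ↔ ∃ c : Fin N → ℚ, (∀ i, 0 ≤ c i) ∧ (∀ i ∉ A, c i = 0) ∧
      (io v : ℚ ⊗[ℤ] K) = ∑ i, c i • io (w i) := by
  constructor
  · rintro ⟨m, n, hm, hn, e⟩
    refine ⟨fun i => (m : ℚ)⁻¹ * n i, fun i => by positivity, fun i hi => by simp [hn i hi], ?_⟩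
    have h1 := congrArg (io : K →ₗ[ℤ] ℚ ⊗[ℤ] K) e
    rw [map_nsmul, map_sum] at h1
    have hm' : (m : ℚ) ≠ 0 := by exact_mod_cast hm.ne'
    have h2 : (io v : ℚ ⊗[ℤ] K) = (m : ℚ)⁻¹ • (m • io v) := by
      rw [← Nat.cast_smul_eq_nsmul ℚ m, smul_smul, inv_mul_cancel₀ hm', one_smul]
    rw [h2, h1, Finset.smul_sum]
    refine Finset.sum_congr rfl fun i _ => ?_
    rw [map_nsmul, ← Nat.cast_smul_eq_nsmul ℚ (n i), smul_smul]
  · rintro ⟨c, hc, hcA, h⟩
    obtain ⟨m, n, hm, hn, e⟩ := io_clear h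
    have hn0 : ∀ j, 0 ≤ n j := by
      intro j
      have h6 : (0 : ℚ) ≤ n j := by
        rw [hn j]
        exact mul_nonneg (Nat.cast_nonneg m) (hc j)
      exact_mod_cast h6
    refine ⟨m, fun j => (n j).toNat, hm, ?_, ?_⟩
    · intro j hj
      have h5 := hn j
      rw [hcA j hj, mul_zero] at h5
      have h6 : n j = 0 := by exact_mod_cast h5
      simp [h6]
    · rw [e]
      refine Finset.sum_congr rfl fun j _ => ?_
      rw [← natCast_zsmul, Int.toNat_of_nonneg (hn0 j)]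

/-- The extremal ray, in the group: `z` is nef and not ample, and the ray is orthogonal to `z`. -/
theorem exists_edge {w : Fin N → K} (hw : AddSubgroup.closure (Set.range w) = ⊤) (u z : K)
    (hu : InCone w univ u) (hz : ∀ A, InCone w A u → InCone w A z)
    (hna : ∃ A, InCone w A z ∧ ¬ InCone w A u) :
    ∃ (A : Finset (Fin N)) (i₀ : Fin N) (lam : K →+ ℤ), i₀ ∉ A ∧ (∀ a ∈ A, lam (w a) = 0) ∧
      0 < lam u ∧ 0 < lam (w i₀) ∧ lam z = 0 ∧
      (∀ v, lam v = 0 → ∃ m : ℕ, 0 < m ∧ m • v ∈ AddSubgroup.closure (w '' A)) ∧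
      ∀ i, 0 < lam (w i) → i ∉ A ∧ InCone w (insert i A) u ∧
        ∀ n : Fin N → ℤ, (∀ j ∉ insert i A, n j = 0) → ∑ j, n j • w j = 0 → n = 0 := by
  classical
  set ω : Fin N → ℚ ⊗[ℤ] K := fun i => io (w i) with hω
  have hu' : ∃ c : Fin N → ℚ, (∀ i, 0 ≤ c i) ∧ (io u : ℚ ⊗[ℤ] K) = ∑ i, c i • ω i := by
    obtain ⟨c, hc, -, e⟩ := inCone_iff.1 hu
    exact ⟨c, hc, e⟩
  have hframe : ∀ D, Frm ω D → ∀ v, (∀ a ∈ D, 0 ≤ phi ω D a (io v)) → InCone w D v := by
    intro D hD v hv
    refine inCone_iff.2 ⟨fun j => if j ∈ D then phi ω D j (io v) else 0, fun j => ?_,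
      fun j hj => if_neg hj, ?_⟩
    · dsimp only
      split_ifs with h
      · exact hv j h
      · exact le_rfl
    · conv_lhs => rw [hD.isFrame.sum (io v)]
      simp only [ite_smul, zero_smul]
      rw [Finset.sum_ite_mem, Finset.univ_inter]
  obtain ⟨A, i₀, l, hi₀, hF₀, hlA, hlu, hli₀, hlz, hall⟩ :=
    exists_extremal (io_span hw) (io u) (io z) hu' (by
      intro D hD hDu a ha
      obtain ⟨c, hc, hcD, e⟩ := inCone_iff.1 (hz D (hframe D hD u hDu))
      rw [e, map_sum, Finset.sum_eq_single_of_mem a (mem_univ a)]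
      · rw [map_smul, hD.isFrame.dual a ha a ha, if_pos rfl, smul_eq_mul, mul_one]
        exact hc a
      · intro b _ hb
        rw [map_smul, smul_eq_mul]
        by_cases hbD : b ∈ D
        · rw [hD.isFrame.dual a ha b hbD, if_neg (Ne.symm hb), mul_zero]
        · rw [hcD b hbD, zero_mul]) (by
      obtain ⟨A, h1, h2⟩ := hna
      exact ⟨A, inCone_iff.1 h1, fun h => h2 (inCone_iff.2 h)⟩)
  -- integrality
  let M : ℕ := ∏ i, (l (ω i)).den
  have hM : 0 < M := Finset.prod_pos fun i _ => (l (ω i)).den_pos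
  have hM' : (0 : ℚ) < M := by exact_mod_cast hM
  have hint : ∀ x : K, ∃ z : ℤ, (z : ℚ) = M * l (io x) := by
    intro x
    have hx : x ∈ AddSubgroup.closure (Set.range w) := by rw [hw]; trivial
    induction hx using AddSubgroup.closure_induction with
    | mem y hy =>
      obtain ⟨i, rfl⟩ := hy
      obtain ⟨q, hq⟩ : (l (ω i)).den ∣ M := Finset.dvd_prod_of_mem _ (mem_univ i)
      refine ⟨q * (l (ω i)).num, ?_⟩
      rw [hq]
      push_cast
      have := Rat.mul_den_eq_num (l (ω i))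
      rw [← this]
      ring
    | zero => exact ⟨0, by simp⟩
    | add a b _ _ ha hb =>
      obtain ⟨za, ha⟩ := ha
      obtain ⟨zb, hb⟩ := hb
      exact ⟨za + zb, by push_cast; rw [ha, hb, map_add, map_add]; ring⟩
    | neg a _ ha =>
      obtain ⟨za, ha⟩ := ha
      exact ⟨-za, by push_cast; rw [ha, map_neg, map_neg]; ring⟩
  choose f hf using hint
  let lam : K →+ ℤ :=
    { toFun := f
      map_zero' := by
        have h1 := hf 0
        rw [map_zero, map_zero, mul_zero] at h1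
        exact_mod_cast h1
      map_add' := fun a b => by
        have h1 := hf (a + b)
        rw [map_add, map_add, mul_add, ← hf a, ← hf b] at h1
        exact_mod_cast h1 }
  have hlam : ∀ x, ((lam x : ℤ) : ℚ) = M * l (io x) := hf
  have hsign : ∀ x, 0 < lam x ↔ 0 < l (io x) := by
    intro x
    have h1 : (0 : ℚ) < (lam x : ℚ) ↔ 0 < lam x := by exact_mod_cast Iff.rfl
    rw [← h1, hlam]
    exact mul_pos_iff_of_pos_left hM'
  have hzero : ∀ x, lam x = 0 ↔ l (io x) = 0 := by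
    intro x
    have h1 : (lam x : ℚ) = 0 ↔ lam x = 0 := by exact_mod_cast Iff.rfl
    rw [← h1, hlam, mul_eq_zero]
    exact or_iff_right hM'.ne'
  refine ⟨A, i₀, lam, hi₀, fun a ha => (hzero _).2 (hlA a ha), (hsign _).2 hlu, (hsign _).2 hli₀,
    (hzero _).2 hlz, ?_, ?_⟩
  · intro v hv
    rw [hzero] at hv
    have h1 : phi ω (insert i₀ A) i₀ (io v) = 0 := by
      have h2 := hF₀.isFrame.apply_eq l (io v)
      rw [hv, Finset.sum_insert hi₀, Finset.sum_eq_zero, add_zero] at h2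
      · rcases mul_eq_zero.1 h2.symm with h3 | h3
        · exact h3
        · exact absurd h3 hli₀.ne'
      · intro a ha
        rw [hlA a ha, mul_zero]
    have h3 : io v = ∑ i, (if i ∈ A then phi ω (insert i₀ A) i (io v) else 0) • io (w i) := by
      have h4 := hF₀.isFrame.sum (io v)
      rw [Finset.sum_insert hi₀, h1, zero_smul, zero_add] at h4
      conv_lhs => rw [h4]
      simp only [ite_smul, zero_smul]
      rw [Finset.sum_ite_mem, Finset.univ_inter]
    obtain ⟨m, n, hm, hn, e⟩ := io_clear h3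
    refine ⟨m, hm, ?_⟩
    rw [e]
    refine AddSubgroup.sum_mem _ fun i _ => ?_
    by_cases hi : i ∈ A
    · exact AddSubgroup.zsmul_mem _ (AddSubgroup.subset_closure (Set.mem_image_of_mem w hi)) _
    · have := hn i
      rw [if_neg hi, mul_zero] at this
      have h5 : n i = 0 := by exact_mod_cast this
      rw [h5, zero_smul]
      exact AddSubgroup.zero_mem _
  · intro i hi
    rw [hsign] at hi
    obtain ⟨hiA, hF, hnn⟩ := hall i hi
    refine ⟨hiA, hframe _ hF u hnn, ?_⟩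
    intro n hn hs
    funext j
    by_cases hj : j ∈ insert i A
    · have h1 := congrArg (io : K →ₗ[ℤ] ℚ ⊗[ℤ] K) hs
      rw [map_sum, map_zero] at h1
      have h2 := congrArg (phi ω (insert i A) j) h1
      rw [map_sum, map_zero, Finset.sum_eq_single_of_mem j (mem_univ j)] at h2
      · rw [map_zsmul, map_zsmul] at h2
        have h3 := hF.isFrame.dual j hj j hj
        rw [if_pos rfl] at h3
        have h4 : phi ω (insert i A) j (io (w j)) = 1 := h3
        rw [h4, zsmul_eq_mul, mul_one] at h2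
        exact_mod_cast h2
      · intro b _ hb
        rw [map_zsmul, map_zsmul]
        by_cases hbI : b ∈ insert i A
        · have h3 := hF.isFrame.dual j hj b hbI
          rw [if_neg (Ne.symm hb)] at h3
          have h4 : phi ω (insert i A) j (io (w b)) = 0 := h3
          rw [h4, smul_zero]
        · rw [hn b hbI, zero_smul]
    · rw [hn j hj, Pi.zero_apply]

end Pool.Agent.T9h74.Toric
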