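import Pool.Agent.T9h74.Toric.Edge
import Pool.Agent.TH144.NV.Basic

/-!
# Substitutions in polynomials which are homogeneous for a grading by an abelian group
-/

set_option autoImplicit false
set_option linter.unusedSectionVars false

namespace Pool.Agent.T9h74.Toric

open Finset MvPolynomial Pool.Agent.TH144.NV

variable {k : Type*} [Field k] {σ ρ : Type*} [Fintype σ] {M : Type*} [AddCommGroup M]

/-- a torus element acting on the points -/
theorem eval_char {w : σ → M} {φ : MvPolynomial σ k} {m : M} (h : IsWeightedHomogeneous w φ m)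
    (T : M →+ Additive kˣ) (p : σ → k) :
    eval (fun x => ((T (w x)).toMul : k) * p x) φ = ((T m).toMul : k) * eval p φ := by
  classical
  rw [eval_eq', eval_eq', Finset.mul_sum]
  refine Finset.sum_congr rfl fun d hd => ?_
  have hw := h (mem_support_iff.1 hd)
  rw [Finsupp.weight_apply, Finsupp.sum_fintype _ _ (by simp)] at hw
  have h1 : ((T m).toMul : k) = ∏ x, ((T (w x)).toMul : k) ^ d x := by
    rw [← hw, map_sum]
    rw [toMul_sum]
    rw [Units.coe_prod]
    refine Finset.prod_congr rfl fun x _ => ?_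
    rw [map_nsmul, toMul_nsmul, Units.val_pow_eq_pow_val]
  simp only [mul_pow, Finset.prod_mul_distrib]
  rw [h1]
  ring

theorem aeval_term (y : σ → MvPolynomial ρ k) (φ : MvPolynomial σ k) :
    aeval y φ = ∑ d ∈ φ.support, C (coeff d φ) * ∏ x, y x ^ d x := by
  rw [aeval_def, eval₂_eq']
  rfl

/-- substituting forms -/
theorem homogeneous_aeval {w : σ → M} {φ : MvPolynomial σ k} {m : M}
    (h : IsWeightedHomogeneous w φ m) (L : M →+ ℤ) (W : ρ → ℕ) (y : σ → MvPolynomial ρ k)
    (hy : ∀ x, y x = 0 ∨ ∃ e : ℕ, (e : ℤ) = L (w x) ∧ IsWeightedHomogeneous W (y x) e)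
    {n : ℕ} (hn : (n : ℤ) = L m) : IsWeightedHomogeneous W (aeval y φ) n := by
  classical
  rw [aeval_term, ← mem_weightedHomogeneousSubmodule]
  refine Submodule.sum_mem _ fun d hd => ?_
  rw [mem_weightedHomogeneousSubmodule]
  have hw := h (mem_support_iff.1 hd)
  rw [Finsupp.weight_apply, Finsupp.sum_fintype _ _ (by simp)] at hw
  by_cases hz : ∃ x, y x = 0 ∧ d x ≠ 0
  · obtain ⟨x, hx, hdx⟩ := hz
    rw [Finset.prod_eq_zero (mem_univ x) (by rw [hx, zero_pow hdx]), mul_zero]
    exact isWeightedHomogeneous_zero _ _ _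
  · push Not at hz
    have h1 : ∀ x, ∃ e : ℕ, (e : ℤ) = d x • L (w x) ∧ IsWeightedHomogeneous W (y x ^ d x) e := by
      intro x
      rcases hy x with h2 | ⟨e, he, h2⟩
      · rw [hz x h2, pow_zero]
        exact ⟨0, by simp, isWeightedHomogeneous_one _ _⟩
      · refine ⟨d x • e, ?_, h2.pow (d x)⟩
        rw [← he]
        simp
    choose e he hhe using h1
    have h3 : IsWeightedHomogeneous W (C (coeff d φ) * ∏ x, y x ^ d x) (0 + ∑ x, e x) :=
      (isWeightedHomogeneous_C _ _).mul (IsWeightedHomogeneous.prod univ _ _ fun x _ => hhe x)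
    have h4 : 0 + ∑ x, e x = n := by
      have h5 : ((∑ x, e x : ℕ) : ℤ) = n := by
        rw [Nat.cast_sum, hn, ← hw, map_sum]
        refine Finset.sum_congr rfl fun x _ => ?_
        rw [he x, map_nsmul]
      rw [zero_add]
      exact_mod_cast h5
    rwa [h4] at h3

/-- substituting semi-invariants -/
theorem act_aeval {w : σ → M} {φ : MvPolynomial σ k} {m : M} [Fintype ρ]
    (h : IsWeightedHomogeneous w φ m) (T : M →+ Additive kˣ) (t : ρ → k) (y : σ → MvPolynomial ρ k)
    (hy : ∀ x, y x = 0 ∨ act t (y x) = C ((T (w x)).toMul : k) * y x) :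
    act t (aeval y φ) = C ((T m).toMul : k) * aeval y φ := by
  classical
  rw [aeval_term, map_sum, Finset.mul_sum]
  refine Finset.sum_congr rfl fun d hd => ?_
  have hw := h (mem_support_iff.1 hd)
  rw [Finsupp.weight_apply, Finsupp.sum_fintype _ _ (by simp)] at hw
  have hC : act t (C (coeff d φ)) = C (coeff d φ) := by
    unfold act
    rw [aeval_C]
    rfl
  by_cases hz : ∃ x, y x = 0 ∧ d x ≠ 0
  · obtain ⟨x, hx, hdx⟩ := hz
    rw [Finset.prod_eq_zero (mem_univ x) (by rw [hx, zero_pow hdx]), mul_zero, map_zero, mul_zero]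
  · push Not at hz
    have h1 : ((T m).toMul : k) = ∏ x, ((T (w x)).toMul : k) ^ d x := by
      rw [← hw, map_sum, toMul_sum, Units.coe_prod]
      refine Finset.prod_congr rfl fun x _ => ?_
      rw [map_nsmul, toMul_nsmul, Units.val_pow_eq_pow_val]
    have h2 : ∏ x, act t (y x) ^ d x = C ((T m).toMul : k) * ∏ x, y x ^ d x := by
      rw [h1, map_prod, ← Finset.prod_mul_distrib]
      refine Finset.prod_congr rfl fun x _ => ?_
      rcases hy x with h2 | h2
      · rw [hz x h2]
        simp
      · rw [h2, mul_pow, C_pow]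
    rw [map_mul, map_prod, hC]
    simp only [map_pow]
    rw [h2]
    ring

theorem mem_closure_image {K : Type*} [AddCommGroup K] {N : ℕ} {w : Fin N → K}
    {s : Finset (Fin N)} {v : K} (h : v ∈ AddSubgroup.closure (w '' s)) :
    ∃ z : Fin N → ℤ, (∀ j ∉ s, z j = 0) ∧ v = ∑ j, z j • w j := by
  classical
  induction h using AddSubgroup.closure_induction with
  | mem y hy =>
    obtain ⟨i, hi, rfl⟩ := hy
    refine ⟨Pi.single i 1, fun j hj => ?_, ?_⟩
    · rw [Pi.single_apply, if_neg]
      rintro rfl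
      exact hj hi
    · rw [Finset.sum_eq_single_of_mem i (mem_univ i)]
      · simp
      · intro b _ hb
        rw [Pi.single_apply, if_neg hb, zero_smul]
  | zero => exact ⟨0, fun _ _ => rfl, by simp⟩
  | add a b _ _ ha hb =>
    obtain ⟨za, ha1, ha2⟩ := ha
    obtain ⟨zb, hb1, hb2⟩ := hb
    refine ⟨za + zb, fun j hj => by rw [Pi.add_apply, ha1 j hj, hb1 j hj, add_zero], ?_⟩
    rw [ha2, hb2, ← Finset.sum_add_distrib]
    exact Finset.sum_congr rfl fun j _ => by rw [Pi.add_apply, add_smul]
  | neg a _ ha =>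
    obtain ⟨za, ha1, ha2⟩ := ha
    refine ⟨-za, fun j hj => by rw [Pi.neg_apply, ha1 j hj, neg_zero], ?_⟩
    rw [ha2, ← Finset.sum_neg_distrib]
    exact Finset.sum_congr rfl fun j _ => by rw [Pi.neg_apply, neg_smul]

end Pool.Agent.T9h74.Toric
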